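import Pool.Agent.Lib.MP_5a160e_an.Main4

namespace Pool.Agent.Results.MP_5a160e_an.DimensionFour

open Pool.Agent.Lib.MP_5a160e_an

/-- For some `0 < μ < L` there is a nonempty open set of tunings `(γ, β)`, inside the region where
heavy-ball converges on quadratics, at each of which heavy-ball has a cycle in dimension four but
no cycle of any length in dimension one, and none in dimensions two and three. -/
theorem result : ∃ μ L : ℝ, 0 < μ ∧ μ < L ∧ ∃ U : Set (ℝ × ℝ), IsOpen U ∧ U.Nonempty ∧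
    ∀ q ∈ U, (0 < q.1 ∧ 0 < q.2 ∧ q.2 < 1 ∧ q.1 * L < 2 * (1 + q.2)) ∧
      (HasCycle (EuclideanSpace ℝ (Fin 4)) μ L q.1 q.2 ∧ ¬ HasCycle ℝ μ L q.1 q.2) ∧
      ¬ HasCycle (EuclideanSpace ℝ (Fin 2)) μ L q.1 q.2 ∧
      ¬ HasCycle (EuclideanSpace ℝ (Fin 3)) μ L q.1 q.2 :=
  main4

end Pool.Agent.Results.MP_5a160e_an.DimensionFour
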